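import Mathlib
import Pool.Agent.N824.CJ.BridgeK

/-!
# Taut foliations from coarse maps

`Y` is a closed manifold of dimension `n` (in the question `n = 3`), `α` a continuous one-form
without zeros on `Y`, and `ω₀` a smooth closed two-form. The theorem characterizes when there is a
smooth closed two-form `σ` in the class of `ω₀` which is nondegenerate on the hyperplanes `ker α`.

If `ker α` is the tangent plane field of a co-oriented foliation of a closed three-manifold `Y`,
the existence of a closed form nondegenerate on the leaves is equivalent to tautness (Rummler,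
Sullivan; not used here). If `Y` is a rational homology sphere, the case which is open in the
question, all closed two-forms are exact, and one takes `ω₀ = 0`.

The criterion: there are maps `f r : Y → (ℝ²)^N`, for arbitrarily small scales `r`, with no
regularity besides local integrability and unrelated for different `r`, which near every point, on
the balls of radius comparable with `r`, are *in the mean* close to affine maps, with an error
`δ` which is small compared with the nondegeneracy, on the hyperplanes `ker α`, of
`ω₀ + L^*(∑ dx ∧ dy)`, `L` the linear part.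

The definitions are in `Pool/Agent/N824/CJ/PubK.lean` (`kerVecs`, `kerPairs`, `NondegOnKer`,
`IsContForm`), `Pool/Agent/N824/CJ/PubV.lean` (`HasCoarseOn`, `CoarseAtOn`, `RobustOn`),
`Pool/Agent/N824/CJ/Pub.lean` (`InClass`, `AffineInMean`, `GoodParam`) and in the starting file
`Pool/Agent/Y501/SY/Pub.lean` (forms).
-/

set_option autoImplicit false

open scoped Manifold ContDiff

namespace Pool.Agent.Results.MP_1611f1_gt.CoarseTaut

open Pool.Agent.Y501.SYP
open Pool.Agent.N824.CJP

theorem result (n : ℕ) : ∃ C₀ : ℕ → ℝ, ∀ C : ℕ → ℝ, (∀ N, C₀ N ≤ C N) →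
    ∀ (Y : Type) [TopologicalSpace Y] [ChartedSpace (ES n) Y] [IsManifold 𝓘(ℝ, ES n) ∞ Y]
      [CompactSpace Y] [T2Space Y] (α : Form (ES n) Y 1) (ω₀ : Form (ES n) Y 2),
      IsContForm α → (∀ y, α y ≠ 0) → IsSmooth ω₀ → IsClosedForm ω₀ →
      ((∃ σ : Form (ES n) Y 2, InClass ω₀ σ ∧ NondegOnKer α σ) ↔
        HasCoarseOn (kerVecs α) n (vol n) C ω₀ (kerPairs α)) :=
  ⟨fun N => 4 * N * Pool.Agent.N824.CJ.CJ n ^ 2, fun C hC Y _ _ _ _ _ α ω₀ hα h0 hs hc =>
    mainKP n C hC Y α hα h0 ω₀ hs hc⟩

end Pool.Agent.Results.MP_1611f1_gt.CoarseTaut
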